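import Pool.Agent.N401.RS.Cnt
set_option autoImplicit false

/-! Sums of indicator functions over random subfamilies: averages of `L^q` norms. -/

namespace Pool.Agent.N401.RS

open Finset MeasureTheory
open scoped ENNReal

variable {X ι : Type*} [Fintype ι] [DecidableEq ι]

/-- the number of the sets `T i`, `i ∈ J`, that contain `x` -/
noncomputable def cnt (T : ι → Set X) (J : Finset ι) (x : X) : ℝ≥0∞ :=
  ∑ i ∈ J, (T i).indicator 1 x

open Classical in
/-- the members that contain `x` -/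
noncomputable def at' (T : ι → Set X) (x : X) : Finset ι := univ.filter (fun i => x ∈ T i)

theorem cnt_eq (T : ι → Set X) (J : Finset ι) (x : X) :
    cnt T J x = ENNReal.ofReal (((J ∩ at' T x).card : ℝ)) := by
  classical
  rw [ENNReal.ofReal_natCast]
  unfold cnt
  have h : ∀ i ∈ J, (T i).indicator (1 : X → ℝ≥0∞) x = if i ∈ at' T x then (1 : ℝ≥0∞) else 0 := by
    intro i _
    by_cases hi : x ∈ T i
    · rw [Set.indicator_of_mem hi, if_pos (by unfold at'; simp [hi])]
      rfl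
    · rw [Set.indicator_of_notMem hi, if_neg (by unfold at'; simp [hi])]
  rw [sum_congr rfl h, sum_boole]
  rw [filter_mem_eq_inter]

theorem cnt_univ (T : ι → Set X) (x : X) :
    cnt T univ x = ENNReal.ofReal (((at' T x).card : ℝ)) := by
  rw [cnt_eq, univ_inter]

theorem cnt_meas [MeasurableSpace X] {T : ι → Set X} (hT : ∀ i, MeasurableSet (T i))
    (J : Finset ι) : Measurable (cnt T J) :=
  Finset.measurable_sum _ fun i _ => measurable_one.indicator (hT i)

/-- the upper bound at a point -/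
theorem upper_pt (T : ι → Set X) {K : ℕ} (hK : 1 ≤ K) (hKs : K ≤ Fintype.card ι) {q : ℝ}
    (hq1 : 1 ≤ q) (hq2 : q ≤ 2) (x : X) :
    ∑ J ∈ (univ : Finset ι).powersetCard K, cnt T J x ^ q ≤
      ENNReal.ofReal ((Fintype.card ι).choose K : ℝ) *
        (ENNReal.ofReal ((K : ℝ) / Fintype.card ι) * cnt T univ x +
          ENNReal.ofReal (((K : ℝ) / Fintype.card ι) ^ q) * cnt T univ x ^ q) := by
  have hq0 : 0 ≤ q := by linarith
  have h1 := moment univ (at' T x) (subset_univ _) hK (by rw [card_univ]; exact hKs) hq1 hq2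
  rw [card_univ] at h1
  have h2 : ∀ J ∈ (univ : Finset ι).powersetCard K, cnt T J x ^ q =
      ENNReal.ofReal ((((J ∩ at' T x).card : ℝ)) ^ q) := by
    intro J _
    rw [cnt_eq, ENNReal.ofReal_rpow_of_nonneg (Nat.cast_nonneg _) hq0]
  rw [sum_congr rfl h2, ← ENNReal.ofReal_sum_of_nonneg fun J _ => by positivity, cnt_univ,
    ENNReal.ofReal_rpow_of_nonneg (Nat.cast_nonneg _) hq0, ← ENNReal.ofReal_mul (by positivity),
    ← ENNReal.ofReal_mul (by positivity), ← ENNReal.ofReal_add (by positivity) (by positivity),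
    ← ENNReal.ofReal_mul (by positivity)]
  refine ENNReal.ofReal_le_ofReal (h1.trans (le_of_eq ?_))
  rw [Real.mul_rpow (by positivity) (by positivity)]

/-- the lower bound at a point -/
theorem lower_pt (T : ι → Set X) {K : ℕ} (hK : 1 ≤ K) (hKs : K ≤ Fintype.card ι) {q : ℝ}
    (hq1 : 1 ≤ q) (x : X) :
    ENNReal.ofReal ((Fintype.card ι).choose K : ℝ) *
      (ENNReal.ofReal (((K : ℝ) / Fintype.card ι) ^ q) * cnt T univ x ^ q) ≤
    ∑ J ∈ (univ : Finset ι).powersetCard K, cnt T J x ^ q := by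
  have hq0 : 0 ≤ q := by linarith
  have h1 := moment_one univ (at' T x) (subset_univ _) hK (by rw [card_univ]; exact hKs)
  rw [card_univ] at h1
  have h2 : ∀ J ∈ (univ : Finset ι).powersetCard K, cnt T J x ^ q =
      ENNReal.ofReal ((((J ∩ at' T x).card : ℝ)) ^ q) := by
    intro J _
    rw [cnt_eq, ENNReal.ofReal_rpow_of_nonneg (Nat.cast_nonneg _) hq0]
  rw [sum_congr rfl h2, ← ENNReal.ofReal_sum_of_nonneg fun J _ => by positivity, cnt_univ,
    ENNReal.ofReal_rpow_of_nonneg (Nat.cast_nonneg _) hq0, ← ENNReal.ofReal_mul (by positivity),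
    ← ENNReal.ofReal_mul (by positivity)]
  refine ENNReal.ofReal_le_ofReal ?_
  have h3 := Real.rpow_sum_le_const_mul_sum_rpow_of_nonneg (s := (univ : Finset ι).powersetCard K)
    (f := fun J => (((J ∩ at' T x).card : ℝ))) hq1 (fun J _ => Nat.cast_nonneg _)
  rw [h1, card_powersetCard, card_univ] at h3
  obtain ⟨w, hw⟩ : ∃ w : ℝ, w = ((Fintype.card ι).choose K : ℝ) := ⟨_, rfl⟩
  rw [← hw] at h3 ⊢
  have hw0 : 0 < w := by
    rw [hw]
    exact_mod_cast Nat.choose_pos hKs
  obtain ⟨S, hS⟩ : ∃ S : ℝ, S = ∑ J ∈ (univ : Finset ι).powersetCard K,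
    (((J ∩ at' T x).card : ℝ)) ^ q := ⟨_, rfl⟩
  rw [← hS] at h3 ⊢
  rw [Real.mul_rpow hw0.le (by positivity), Real.mul_rpow (by positivity) (by positivity)] at h3
  have h4 : w ^ q = w ^ (q - 1) * w := by
    rw [Real.rpow_sub_one hw0.ne']
    field_simp
  rw [h4, mul_assoc] at h3
  exact le_of_mul_le_mul_left h3 (Real.rpow_pos_of_pos hw0 _)

variable [MeasurableSpace X]

/-- the upper bound -/
theorem upper (μ : Measure X) {T : ι → Set X} (hT : ∀ i, MeasurableSet (T i)) {K : ℕ}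
    (hK : 1 ≤ K) (hKs : K ≤ Fintype.card ι) {q : ℝ} (hq1 : 1 ≤ q) (hq2 : q ≤ 2) :
    ∑ J ∈ (univ : Finset ι).powersetCard K, ∫⁻ x, cnt T J x ^ q ∂μ ≤
      ENNReal.ofReal ((Fintype.card ι).choose K : ℝ) *
        (ENNReal.ofReal ((K : ℝ) / Fintype.card ι) * (∫⁻ x, cnt T univ x ∂μ) +
          ENNReal.ofReal (((K : ℝ) / Fintype.card ι) ^ q) * ∫⁻ x, cnt T univ x ^ q ∂μ) := by
  rw [← lintegral_finsetSum _ fun J _ => (cnt_meas hT J).pow_const q]
  refine (lintegral_mono fun x => upper_pt T hK hKs hq1 hq2 x).trans (le_of_eq ?_)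
  rw [lintegral_const_mul' _ _ ENNReal.ofReal_ne_top, lintegral_add_left
    ((cnt_meas hT univ).const_mul _), lintegral_const_mul' _ _ ENNReal.ofReal_ne_top,
    lintegral_const_mul' _ _ ENNReal.ofReal_ne_top]

/-- the lower bound -/
theorem lower (μ : Measure X) {T : ι → Set X} (hT : ∀ i, MeasurableSet (T i)) {K : ℕ}
    (hK : 1 ≤ K) (hKs : K ≤ Fintype.card ι) {q : ℝ} (hq1 : 1 ≤ q) :
    ENNReal.ofReal ((Fintype.card ι).choose K : ℝ) *
      (ENNReal.ofReal (((K : ℝ) / Fintype.card ι) ^ q) * ∫⁻ x, cnt T univ x ^ q ∂μ) ≤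
    ∑ J ∈ (univ : Finset ι).powersetCard K, ∫⁻ x, cnt T J x ^ q ∂μ := by
  rw [← lintegral_finsetSum _ fun J _ => (cnt_meas hT J).pow_const q,
    ← lintegral_const_mul' _ _ ENNReal.ofReal_ne_top,
    ← lintegral_const_mul' _ _ ENNReal.ofReal_ne_top]
  exact lintegral_mono fun x => lower_pt T hK hKs hq1 x

/-- interpolation between `L^1` and `L^r` -/
theorem interp (μ : Measure X) {F : X → ℝ≥0∞} (hF : Measurable F) {s r q : ℝ} (hs : 0 ≤ s)
    (hs1 : s ≤ 1) (hr : 0 ≤ r) (hq : q = 1 - s + s * r) :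
    ∫⁻ x, F x ^ q ∂μ ≤ (∫⁻ x, F x ∂μ) ^ (1 - s) * (∫⁻ x, F x ^ r ∂μ) ^ s := by
  have h := ENNReal.lintegral_mul_norm_pow_le (μ := μ) (f := F) (g := fun x => F x ^ r)
    hF.aemeasurable (hF.pow_const r).aemeasurable (p := 1 - s) (q := s) (by linarith) hs (by ring)
  refine le_trans (le_of_eq ?_) h
  refine lintegral_congr fun x => ?_
  rw [← ENNReal.rpow_mul, ← ENNReal.rpow_add_of_nonneg _ _ (by linarith) (by positivity), hq]
  congr 1
  ring

end Pool.Agent.N401.RS
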