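import Mathlib
set_option autoImplicit false

/-! Moments of the size of the intersection with a random subset of `K` elements. -/

namespace Pool.Agent.N401.RS

open Finset

variable {ι : Type*} [DecidableEq ι]

/-- the number of the subsets with `K` elements containing `B` -/
theorem card_super (s B : Finset ι) (hB : B ⊆ s) {K : ℕ} (hK : B.card ≤ K) :
    ((s.powersetCard K).filter (fun J => B ⊆ J)).card = (s.card - B.card).choose (K - B.card) := by
  rw [← card_sdiff_of_subset hB, ← card_powersetCard]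
  refine card_nbij' (fun J => J \ B) (fun J => J ∪ B) ?_ ?_ ?_ ?_
  · intro J hJ
    rw [mem_coe, mem_filter, mem_powersetCard] at hJ
    rw [mem_coe, mem_powersetCard]
    exact ⟨sdiff_subset_sdiff hJ.1.1 (Subset.refl _), by rw [card_sdiff_of_subset hJ.2, hJ.1.2]⟩
  · intro J hJ
    rw [mem_coe, mem_powersetCard] at hJ
    rw [mem_coe, mem_filter, mem_powersetCard]
    refine ⟨⟨union_subset (hJ.1.trans sdiff_subset) hB, ?_⟩, subset_union_right⟩
    rw [card_union_of_disjoint, hJ.2]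
    · omega
    · exact disjoint_of_subset_left hJ.1 sdiff_disjoint
  · intro J hJ
    rw [mem_coe, mem_filter, mem_powersetCard] at hJ
    exact sdiff_union_of_subset hJ.2
  · intro J hJ
    rw [mem_coe, mem_powersetCard] at hJ
    show (J ∪ B) \ B = J
    rw [union_sdiff_right]
    exact sdiff_eq_self_of_disjoint (disjoint_of_subset_left hJ.1 sdiff_disjoint)

/-- the number of the subsets with `K` elements containing `i` -/
theorem card_one (s : Finset ι) {i : ι} (hi : i ∈ s) {K : ℕ} (hK : 1 ≤ K) :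
    (((s.powersetCard K).filter (fun J => i ∈ J)).card : ℝ) * s.card =
      (s.card.choose K : ℝ) * K := by
  have h1 := card_super s {i} (singleton_subset_iff.2 hi) (K := K) (by rw [card_singleton]; exact hK)
  simp only [singleton_subset_iff, card_singleton] at h1
  rw [h1]
  obtain ⟨k, rfl⟩ : ∃ k, K = k + 1 := ⟨K - 1, by omega⟩
  have hs : 1 ≤ s.card := card_pos.2 ⟨i, hi⟩
  obtain ⟨n, hn⟩ : ∃ n, s.card = n + 1 := ⟨s.card - 1, by omega⟩
  rw [hn, Nat.add_sub_cancel, Nat.add_sub_cancel]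
  have h2 := Nat.add_one_mul_choose_eq n k
  have h3 : (((n + 1) * n.choose k : ℕ) : ℝ) = ((n + 1).choose (k + 1) * (k + 1) : ℕ) := by
    exact_mod_cast h2
  push_cast at h3 ⊢
  linarith

/-- the number of the subsets with `K` elements containing `i` and `j` -/
theorem card_two (s : Finset ι) {i j : ι} (hi : i ∈ s) (hj : j ∈ s) (hij : i ≠ j) {K : ℕ}
    (hKs : K ≤ s.card) :
    (((s.powersetCard K).filter (fun J => i ∈ J ∧ j ∈ J)).card : ℝ) * (s.card : ℝ) ^ 2 ≤
      (s.card.choose K : ℝ) * (K : ℝ) ^ 2 := by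
  have hcard : ({i, j} : Finset ι).card = 2 := card_pair hij
  have hsub : ({i, j} : Finset ι) ⊆ s := by
    intro x hx
    rw [mem_insert, mem_singleton] at hx
    rcases hx with rfl | rfl
    · exact hi
    · exact hj
  have hs : 2 ≤ s.card := by
    rw [← hcard]
    exact card_le_card hsub
  have heq : (fun J : Finset ι => ({i, j} : Finset ι) ⊆ J) = fun J => i ∈ J ∧ j ∈ J := by
    funext J
    rw [insert_subset_iff, singleton_subset_iff]
  rcases Nat.lt_or_ge K 2 with hK | hK
  · have h0 : (s.powersetCard K).filter (fun J => i ∈ J ∧ j ∈ J) = ∅ := by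
      rw [filter_eq_empty_iff]
      intro J hJ h
      rw [mem_powersetCard] at hJ
      have h1 : ({i, j} : Finset ι) ⊆ J := by
        rw [insert_subset_iff, singleton_subset_iff]
        exact h
      have h2 := card_le_card h1
      rw [hcard, hJ.2] at h2
      omega
    rw [h0, card_empty, Nat.cast_zero, zero_mul]
    positivity
  · have h1 := card_super s {i, j} hsub (K := K) (by rw [hcard]; exact hK)
    rw [hcard] at h1
    have h1' : ((s.powersetCard K).filter (fun J => i ∈ J ∧ j ∈ J)).card =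
        (s.card - 2).choose (K - 2) := by
      rw [← h1]
      congr 1
      refine filter_congr fun J _ => ?_
      rw [insert_subset_iff, singleton_subset_iff]
    rw [h1']
    obtain ⟨k, rfl⟩ : ∃ k, K = k + 2 := ⟨K - 2, by omega⟩
    obtain ⟨n, hn⟩ : ∃ n, s.card = n + 2 := ⟨s.card - 2, by omega⟩
    rw [hn] at hKs ⊢
    rw [Nat.add_sub_cancel, Nat.add_sub_cancel]
    have e1 := Nat.add_one_mul_choose_eq n k
    have e2 := Nat.add_one_mul_choose_eq (n + 1) (k + 1)
    have e1' : ((n : ℝ) + 1) * n.choose k = (n + 1).choose (k + 1) * ((k : ℝ) + 1) := by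
      exact_mod_cast e1
    have e2' : ((n : ℝ) + 1 + 1) * (n + 1).choose (k + 1) =
        (n + 1 + 1).choose (k + 1 + 1) * ((k : ℝ) + 1 + 1) := by
      exact_mod_cast e2
    have e3 : ((n : ℝ) + 2) * ((n : ℝ) + 1) * n.choose k =
        (n + 2).choose (k + 2) * ((k : ℝ) + 2) * ((k : ℝ) + 1) := by
      have : ((n : ℝ) + 2) * ((n : ℝ) + 1) * n.choose k =
          ((n : ℝ) + 1 + 1) * (((n : ℝ) + 1) * n.choose k) := by ring
      rw [this, e1', ← mul_assoc, e2']
      ring
    have hkn : (k : ℝ) ≤ n := by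
      have : k ≤ n := by omega
      exact_mod_cast this
    have hn1 : (0 : ℝ) < (n : ℝ) + 1 := by positivity
    have hc : (0 : ℝ) ≤ ((n + 2).choose (k + 2) : ℝ) := Nat.cast_nonneg _
    have e4 : (n.choose k : ℝ) * ((n : ℝ) + 2) ^ 2 * ((n : ℝ) + 1) =
        (n + 2).choose (k + 2) * (((k : ℝ) + 2) * (((k : ℝ) + 1) * ((n : ℝ) + 2))) := by
      have : (n.choose k : ℝ) * ((n : ℝ) + 2) ^ 2 * ((n : ℝ) + 1) =
        (((n : ℝ) + 2) * ((n : ℝ) + 1) * n.choose k) * ((n : ℝ) + 2) := by ring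
      rw [this, e3]
      ring
    have e5 : ((k : ℝ) + 1) * ((n : ℝ) + 2) ≤ ((k : ℝ) + 2) * ((n : ℝ) + 1) := by nlinarith
    have e6 : (n.choose k : ℝ) * ((n : ℝ) + 2) ^ 2 * ((n : ℝ) + 1) ≤
        (n + 2).choose (k + 2) * ((k : ℝ) + 2) ^ 2 * ((n : ℝ) + 1) := by
      rw [e4]
      have e7 := mul_le_mul_of_nonneg_left (mul_le_mul_of_nonneg_left e5
        (show (0 : ℝ) ≤ (k : ℝ) + 2 by positivity)) hc
      refine e7.trans (le_of_eq ?_)
      ring
    have e8 := le_of_mul_le_mul_right e6 hn1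
    push_cast
    exact e8

/-- the first moment -/
theorem moment_one (s A : Finset ι) (hA : A ⊆ s) {K : ℕ} (hK : 1 ≤ K) (hKs : K ≤ s.card) :
    ∑ J ∈ s.powersetCard K, ((J ∩ A).card : ℝ) =
      (s.card.choose K : ℝ) * ((K : ℝ) / s.card * A.card) := by
  have hs0 : (0 : ℝ) < s.card := by
    have : 1 ≤ s.card := hK.trans hKs
    exact_mod_cast this
  have h1 : ∀ J ∈ s.powersetCard K, ((J ∩ A).card : ℝ) = ∑ i ∈ A, if i ∈ J then (1 : ℝ) else 0 := by
    intro J _
    rw [sum_boole, filter_mem_eq_inter, inter_comm]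
  rw [sum_congr rfl h1, sum_comm]
  have h2 : ∀ i ∈ A, ∑ J ∈ s.powersetCard K, (if i ∈ J then (1 : ℝ) else 0) =
      (s.card.choose K : ℝ) * ((K : ℝ) / s.card) := by
    intro i hi
    rw [sum_boole]
    have := card_one s (hA hi) hK
    field_simp
    linarith
  rw [sum_congr rfl h2, sum_const, nsmul_eq_mul]
  ring

/-- the second moment -/
theorem moment_two (s A : Finset ι) (hA : A ⊆ s) {K : ℕ} (hK : 1 ≤ K) (hKs : K ≤ s.card) :
    ∑ J ∈ s.powersetCard K, ((J ∩ A).card : ℝ) ^ 2 ≤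
      (s.card.choose K : ℝ) * ((K : ℝ) / s.card * A.card + ((K : ℝ) / s.card * A.card) ^ 2) := by
  have hs0 : (0 : ℝ) < s.card := by
    have : 1 ≤ s.card := hK.trans hKs
    exact_mod_cast this
  have h1 : ∀ J ∈ s.powersetCard K, ((J ∩ A).card : ℝ) ^ 2 =
      ∑ i ∈ A, ∑ j ∈ A, if i ∈ J ∧ j ∈ J then (1 : ℝ) else 0 := by
    intro J _
    have e : ((J ∩ A).card : ℝ) = ∑ i ∈ A, if i ∈ J then (1 : ℝ) else 0 := by
      rw [sum_boole, filter_mem_eq_inter, inter_comm]
    rw [e, pow_two, sum_mul_sum]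
    refine sum_congr rfl fun i _ => sum_congr rfl fun j _ => ?_
    by_cases h1 : i ∈ J <;> by_cases h2 : j ∈ J <;> simp [h1, h2]
  rw [sum_congr rfl h1, sum_comm]
  have h2 : ∀ i ∈ A, ∑ J ∈ s.powersetCard K, ∑ j ∈ A, (if i ∈ J ∧ j ∈ J then (1 : ℝ) else 0) ≤
      (s.card.choose K : ℝ) * ((K : ℝ) / s.card) +
        (s.card.choose K : ℝ) * ((K : ℝ) / s.card) ^ 2 * A.card := by
    intro i hi
    rw [sum_comm, ← add_sum_erase A _ hi]
    refine add_le_add ?_ ?_
    · rw [sum_boole]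
      simp only [and_self]
      have := card_one s (hA hi) hK
      refine le_of_eq ?_
      field_simp
      linarith
    · have h3 : ∀ j ∈ A.erase i, ∑ J ∈ s.powersetCard K, (if i ∈ J ∧ j ∈ J then (1 : ℝ) else 0) ≤
          (s.card.choose K : ℝ) * ((K : ℝ) / s.card) ^ 2 := by
        intro j hj
        rw [mem_erase] at hj
        rw [sum_boole, div_pow, ← mul_div_assoc, le_div_iff₀ (by positivity)]
        exact card_two s (hA hi) (hA hj.2) (Ne.symm hj.1) hKs
      refine (sum_le_sum h3).trans ?_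
      rw [sum_const, nsmul_eq_mul, mul_comm]
      refine mul_le_mul_of_nonneg_left ?_ (by positivity)
      exact_mod_cast card_le_card (erase_subset i A)
  refine (sum_le_sum h2).trans (le_of_eq ?_)
  rw [sum_const, nsmul_eq_mul]
  ring

/-- moments between the first and the second -/
theorem moment (s A : Finset ι) (hA : A ⊆ s) {K : ℕ} (hK : 1 ≤ K) (hKs : K ≤ s.card) {q : ℝ}
    (hq1 : 1 ≤ q) (hq2 : q ≤ 2) :
    ∑ J ∈ s.powersetCard K, ((J ∩ A).card : ℝ) ^ q ≤
      (s.card.choose K : ℝ) * ((K : ℝ) / s.card * A.card + ((K : ℝ) / s.card * A.card) ^ q) := by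
  obtain ⟨m, hm⟩ : ∃ m : ℝ, m = (K : ℝ) / s.card * A.card := ⟨_, rfl⟩
  obtain ⟨w, hw⟩ : ∃ w : ℝ, w = (s.card.choose K : ℝ) := ⟨_, rfl⟩
  have hm0 : 0 ≤ m := by rw [hm]; positivity
  have hw0 : 0 ≤ w := by rw [hw]; positivity
  have h1 := moment_one s A hA hK hKs
  have h2 := moment_two s A hA hK hKs
  rw [← hm, ← hw] at h1 h2 ⊢
  rcases hq1.eq_or_lt with rfl | hq1
  · simp only [Real.rpow_one]
    rw [h1]
    nlinarith
  rcases hq2.eq_or_lt with rfl | hq2
  · have e : ∀ x : ℝ, x ^ (2 : ℝ) = x ^ 2 := fun x => by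
      rw [← Real.rpow_natCast]; norm_num
    simp only [e]
    exact h2
  · have hp1 : 0 < 2 - q := by linarith
    have hp2 : 0 < q - 1 := by linarith
    have hpq : (1 / (2 - q)).HolderConjugate (1 / (q - 1)) := by
      rw [Real.holderConjugate_iff]
      constructor
      · rw [lt_div_iff₀ hp1]
        linarith
      · rw [one_div, one_div, inv_inv, inv_inv]
        ring
    have h3 := Real.inner_le_Lp_mul_Lq_of_nonneg (s.powersetCard K)
      (f := fun J => ((J ∩ A).card : ℝ) ^ (2 - q)) (g := fun J => (((J ∩ A).card : ℝ) ^ 2) ^ (q - 1))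
      hpq (fun J _ => by positivity) (fun J _ => by positivity)
    have e1 : ∀ J : Finset ι, ((J ∩ A).card : ℝ) ^ (2 - q) * (((J ∩ A).card : ℝ) ^ 2) ^ (q - 1) =
        ((J ∩ A).card : ℝ) ^ q := by
      intro J
      rw [← Real.rpow_natCast, ← Real.rpow_mul (Nat.cast_nonneg _),
        ← Real.rpow_add_of_nonneg (Nat.cast_nonneg _) hp1.le (by push_cast; nlinarith)]
      congr 1
      push_cast
      ring
    have e2 : ∀ J : Finset ι, (((J ∩ A).card : ℝ) ^ (2 - q)) ^ (1 / (2 - q)) =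
        ((J ∩ A).card : ℝ) := by
      intro J
      rw [← Real.rpow_mul (Nat.cast_nonneg _), mul_one_div_cancel hp1.ne', Real.rpow_one]
    have e3 : ∀ J : Finset ι, ((((J ∩ A).card : ℝ) ^ 2) ^ (q - 1)) ^ (1 / (q - 1)) =
        ((J ∩ A).card : ℝ) ^ 2 := by
      intro J
      rw [← Real.rpow_mul (by positivity), mul_one_div_cancel hp2.ne', Real.rpow_one]
    simp only [e1, e2, e3, one_div_one_div] at h3
    rw [h1] at h3
    refine h3.trans ?_
    have h4 : (∑ J ∈ s.powersetCard K, ((J ∩ A).card : ℝ) ^ 2) ^ (q - 1) ≤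
        (w * (m + m ^ 2)) ^ (q - 1) :=
      Real.rpow_le_rpow (sum_nonneg fun J _ => by positivity) h2 hp2.le
    refine (mul_le_mul_of_nonneg_left h4 (by positivity)).trans ?_
    have h5 : (1 + m) ^ (q - 1) ≤ 1 + m ^ (q - 1) := by
      have h6 := Real.rpow_add_le_add_rpow (p := q - 1) zero_le_one hm0 hp2.le (by linarith)
      rw [Real.one_rpow] at h6
      exact h6
    have h6 : (w * (m + m ^ 2)) ^ (q - 1) = w ^ (q - 1) * (m ^ (q - 1) * (1 + m) ^ (q - 1)) := by
      rw [← Real.mul_rpow hm0 (by positivity), ← Real.mul_rpow hw0 (by positivity)]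
      congr 1
      ring
    rw [h6, Real.mul_rpow hw0 hm0]
    have h7 : w ^ (2 - q) * m ^ (2 - q) * (w ^ (q - 1) * (m ^ (q - 1) * (1 + m) ^ (q - 1))) =
        (w ^ (2 - q) * w ^ (q - 1)) * ((m ^ (2 - q) * m ^ (q - 1)) * (1 + m) ^ (q - 1)) := by ring
    have h8 : ∀ x : ℝ, 0 ≤ x → x ^ (2 - q) * x ^ (q - 1) = x := by
      intro x hx
      rw [← Real.rpow_add_of_nonneg hx hp1.le hp2.le]
      have : 2 - q + (q - 1) = 1 := by ring
      rw [this, Real.rpow_one]
    rw [h7, h8 w hw0, h8 m hm0]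
    refine mul_le_mul_of_nonneg_left ?_ hw0
    refine (mul_le_mul_of_nonneg_left h5 hm0).trans (le_of_eq ?_)
    have h9 : m ^ q = m * m ^ (q - 1) := by
      conv_rhs => rw [← Real.rpow_one m, ← Real.rpow_mul hm0, one_mul]
      rw [← Real.rpow_add_of_nonneg hm0 zero_le_one hp2.le]
      congr 1
      ring
    rw [h9]
    ring

end Pool.Agent.N401.RS
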