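import Pool.Agent.Y254.Main
import Pool.Agent.N401.RS.Abs
set_option autoImplicit false

/-! The inequality for tubes on average over the subfamilies with `K` members. -/

namespace Pool.Agent.N401.RS

open Finset MeasureTheory
open scoped ENNReal
open Pool.Agent.TH705.RR (E)
open Pool.Agent.Y254 (tube tube_meas Cv Cv_pos mass wolff mult)

/-- `δ`-separated unit vectors -/
def Sep {n N : ℕ} (δ : ℝ) (e : Fin N → E n) : Prop :=
  (∀ i, ‖e i‖ = 1) ∧ ∀ i j, i ≠ j → δ ≤ ‖e i - e j‖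

/-- the inequality with a loss, for all families -/
def Loss (n : ℕ) (q θ : ℝ) : Prop :=
  ∃ C : ℝ, 0 < C ∧ ∀ δ : ℝ, 0 < δ → δ < 1 → ∀ (N : ℕ) (a e : Fin N → E n), Sep δ e →
    ∫⁻ y, cnt (fun i => tube δ (a i) (e i)) univ y ^ q ≤
      ENNReal.ofReal (C * δ ^ (n - 1) * (N : ℝ) ^ (q - θ / ((n : ℝ) - 1)))

/-- the inequality on average -/
def Avg (n : ℕ) (q θ : ℝ) : Prop :=
  ∃ C : ℝ, 0 < C ∧ ∀ δ : ℝ, 0 < δ → δ < 1 → ∀ (N : ℕ) (a e : Fin N → E n), Sep δ e →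
    ∀ K : ℕ, 1 ≤ K → K ≤ N → (K : ℝ) ≤ (N : ℝ) ^ θ →
    ∑ J ∈ (univ : Finset (Fin N)).powersetCard K,
      ∫⁻ y, cnt (fun i => tube δ (a i) (e i)) J y ^ q ≤
      ENNReal.ofReal (N.choose K : ℝ) *
        ENNReal.ofReal (C * δ ^ (n - 1) * (K : ℝ) ^ (q - 1 / ((n : ℝ) - 1)))

theorem real1 {K N q θ m : ℝ} (hK : 1 ≤ K) (hN : 1 ≤ N) (hm : 0 < m) (h : K ≤ N ^ θ) :
    (K / N) ^ q * N ^ (q - θ / m) ≤ K ^ (q - 1 / m) := by
  have hK0 : 0 < K := by linarith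
  have hN0 : 0 < N := by linarith
  have h1 : (K / N) ^ q * N ^ (q - θ / m) = K ^ q * N ^ (-(θ / m)) := by
    rw [Real.div_rpow hK0.le hN0.le, Real.rpow_sub hN0, Real.rpow_neg hN0.le]
    have := (Real.rpow_pos_of_pos hN0 q).ne'
    field_simp
  have h2 : K ^ (q - 1 / m) = K ^ q * (K ^ (1 / m))⁻¹ := by
    rw [Real.rpow_sub hK0, div_eq_mul_inv]
  have h3 : K ^ (1 / m) ≤ N ^ (θ / m) := by
    refine (Real.rpow_le_rpow hK0.le h (by positivity)).trans (le_of_eq ?_)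
    rw [← Real.rpow_mul hN0.le]
    congr 1
    ring
  rw [h1, h2, Real.rpow_neg hN0.le]
  exact mul_le_mul_of_nonneg_left (inv_anti₀ (Real.rpow_pos_of_pos hK0 _) h3)
    (Real.rpow_nonneg hK0.le _)

theorem real2 {K N q θ m : ℝ} (hK : 1 ≤ K) (hN : 1 ≤ N) (hm : 0 < m) (h : N ^ θ ≤ 2 * K) :
    ((K / N) ^ q)⁻¹ * K ^ (q - 1 / m) ≤ 2 ^ (1 / m) * N ^ (q - θ / m) := by
  have hK0 : 0 < K := by linarith
  have hN0 : 0 < N := by linarith
  have h1 : ((K / N) ^ q)⁻¹ * K ^ (q - 1 / m) = N ^ q * (K ^ (1 / m))⁻¹ := by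
    rw [Real.div_rpow hK0.le hN0.le, Real.rpow_sub hK0]
    have := (Real.rpow_pos_of_pos hN0 q).ne'
    have := (Real.rpow_pos_of_pos hK0 q).ne'
    field_simp
  have h2 : N ^ (θ / m) ≤ 2 ^ (1 / m) * K ^ (1 / m) := by
    rw [← Real.mul_rpow (by norm_num) hK0.le]
    refine le_trans (le_of_eq ?_) (Real.rpow_le_rpow (by positivity) h
      (show (0 : ℝ) ≤ 1 / m by positivity))
    rw [← Real.rpow_mul hN0.le]
    congr 1
    ring
  rw [h1, Real.rpow_sub hN0]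
  have h3 : 0 < K ^ (1 / m) := Real.rpow_pos_of_pos hK0 _
  have h4 : 0 < N ^ (θ / m) := Real.rpow_pos_of_pos hN0 _
  have h5 : (K ^ (1 / m))⁻¹ ≤ 2 ^ (1 / m) / N ^ (θ / m) := by
    rw [inv_eq_one_div, div_le_div_iff₀ h3 h4, one_mul]
    exact h2
  calc N ^ q * (K ^ (1 / m))⁻¹ ≤ N ^ q * (2 ^ (1 / m) / N ^ (θ / m)) :=
        mul_le_mul_of_nonneg_left h5 (Real.rpow_nonneg hN0.le _)
    _ = _ := by ring

variable {n : ℕ}

theorem mass' (hn : 1 ≤ n) {δ : ℝ} (hδ : 0 < δ) (hδ1 : δ < 1) {N : ℕ} {a e : Fin N → E n}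
    (hs : Sep δ e) : ∫⁻ y, cnt (fun i => tube δ (a i) (e i)) univ y ≤
      ENNReal.ofReal (2 * Cv n * ((N : ℝ) * δ ^ (n - 1))) := by
  have h := mass hn hδ hδ1 a e hs.1
  rw [Fintype.card_fin] at h
  exact h

/-- from the inequality with a loss to averages -/
theorem fwd (hn : 2 ≤ n) {q θ : ℝ} (hq : (n : ℝ) / ((n : ℝ) - 1) ≤ q) (hq2 : q ≤ 2)
    (h : Loss n q θ) : Avg n q θ := by
  obtain ⟨C, hC, h⟩ := h
  have hn2 : (2 : ℝ) ≤ n := by exact_mod_cast hn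
  have hm : (0 : ℝ) < (n : ℝ) - 1 := by linarith
  have hq' : 1 ≤ q - 1 / ((n : ℝ) - 1) := by
    have : (n : ℝ) / ((n : ℝ) - 1) = 1 + 1 / ((n : ℝ) - 1) := by field_simp; ring
    linarith
  have hq1 : 1 ≤ q := by
    have : 0 < 1 / ((n : ℝ) - 1) := by positivity
    linarith
  have hCv := Cv_pos n
  refine ⟨2 * Cv n + C, by positivity, ?_⟩
  intro δ hδ hδ1 N a e hs K hK hKN hKθ
  have h1 := upper volume (T := fun i => tube δ (a i) (e i)) (fun i => tube_meas _ _ _) hK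
    (by rw [Fintype.card_fin]; exact hKN) hq1 hq2
  rw [Fintype.card_fin] at h1
  refine h1.trans (mul_le_mul_right ?_ _)
  have hKR : (1 : ℝ) ≤ K := by exact_mod_cast hK
  have hNR : (1 : ℝ) ≤ N := by exact_mod_cast hK.trans hKN
  have hN0 : (0 : ℝ) < N := by linarith
  have h2 := mass' (a := a) (by omega : 1 ≤ n) hδ hδ1 hs
  have h3 := h δ hδ hδ1 N a e hs
  calc ENNReal.ofReal ((K : ℝ) / N) * (∫⁻ y, cnt (fun i => tube δ (a i) (e i)) univ y) +
        ENNReal.ofReal (((K : ℝ) / N) ^ q) * ∫⁻ y, cnt (fun i => tube δ (a i) (e i)) univ y ^ q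
      ≤ ENNReal.ofReal ((K : ℝ) / N) * ENNReal.ofReal (2 * Cv n * ((N : ℝ) * δ ^ (n - 1))) +
        ENNReal.ofReal (((K : ℝ) / N) ^ q) *
          ENNReal.ofReal (C * δ ^ (n - 1) * (N : ℝ) ^ (q - θ / ((n : ℝ) - 1))) := by
        gcongr
    _ = ENNReal.ofReal ((K : ℝ) / N * (2 * Cv n * ((N : ℝ) * δ ^ (n - 1))) +
        ((K : ℝ) / N) ^ q * (C * δ ^ (n - 1) * (N : ℝ) ^ (q - θ / ((n : ℝ) - 1)))) := by
        rw [← ENNReal.ofReal_mul (by positivity), ← ENNReal.ofReal_mul (by positivity),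
          ← ENNReal.ofReal_add (by positivity) (by positivity)]
    _ ≤ _ := by
        refine ENNReal.ofReal_le_ofReal ?_
        have e1 : (K : ℝ) / N * (2 * Cv n * ((N : ℝ) * δ ^ (n - 1))) =
            2 * Cv n * δ ^ (n - 1) * K := by
          field_simp
        have e2 : (K : ℝ) ≤ (K : ℝ) ^ (q - 1 / ((n : ℝ) - 1)) := by
          conv_lhs => rw [← Real.rpow_one (K : ℝ)]
          exact Real.rpow_le_rpow_of_exponent_le hKR hq'
        have e3 := real1 (q := q) hKR hNR hm hKθ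
        have e4 : ((K : ℝ) / N) ^ q * (C * δ ^ (n - 1) * (N : ℝ) ^ (q - θ / ((n : ℝ) - 1))) =
            C * δ ^ (n - 1) * (((K : ℝ) / N) ^ q * (N : ℝ) ^ (q - θ / ((n : ℝ) - 1))) := by ring
        rw [e1, e4]
        have e5 : 0 ≤ 2 * Cv n * δ ^ (n - 1) := by positivity
        have e6 : 0 ≤ C * δ ^ (n - 1) := by positivity
        have e7 := mul_le_mul_of_nonneg_left e2 e5
        have e8 := mul_le_mul_of_nonneg_left e3 e6
        refine (add_le_add e7 e8).trans (le_of_eq ?_)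
        ring

/-- from averages to the inequality with a loss -/
theorem bwd (hn : 2 ≤ n) {q θ : ℝ} (hq1 : 1 ≤ q) (hθ0 : 0 ≤ θ) (hθ1 : θ ≤ 1)
    (h : Avg n q θ) : Loss n q θ := by
  obtain ⟨C, hC, h⟩ := h
  have hn2 : (2 : ℝ) ≤ n := by exact_mod_cast hn
  have hm : (0 : ℝ) < (n : ℝ) - 1 := by linarith
  refine ⟨2 ^ (1 / ((n : ℝ) - 1)) * C, by positivity, ?_⟩
  intro δ hδ hδ1 N a e hs
  rcases Nat.eq_zero_or_pos N with rfl | hN
  · have : ∀ y : E n, cnt (fun i => tube δ (a i) (e i)) univ y ^ q = 0 := by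
      intro y
      unfold cnt
      rw [univ_eq_empty, sum_empty, ENNReal.zero_rpow_of_pos (by linarith)]
    simp only [this, lintegral_zero]
    exact zero_le
  have hNR : (1 : ℝ) ≤ N := by exact_mod_cast hN
  have hN0 : (0 : ℝ) < N := by linarith
  have hNθ : 1 ≤ (N : ℝ) ^ θ := Real.one_le_rpow hNR hθ0
  obtain ⟨K, hKd⟩ : ∃ K : ℕ, K = ⌊(N : ℝ) ^ θ⌋₊ := ⟨_, rfl⟩
  have hK1 : 1 ≤ K := by
    rw [hKd]
    exact Nat.le_floor (by exact_mod_cast hNθ)
  have hKθ : (K : ℝ) ≤ (N : ℝ) ^ θ := by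
    rw [hKd]
    exact Nat.floor_le (by positivity)
  have hKN : K ≤ N := by
    have h1 : (N : ℝ) ^ θ ≤ (N : ℝ) ^ (1 : ℝ) := Real.rpow_le_rpow_of_exponent_le hNR hθ1
    rw [Real.rpow_one] at h1
    exact_mod_cast hKθ.trans h1
  have hKR : (1 : ℝ) ≤ K := by exact_mod_cast hK1
  have hK0 : (0 : ℝ) < K := by linarith
  have hK2 : (N : ℝ) ^ θ ≤ 2 * K := by
    have := Nat.lt_floor_add_one ((N : ℝ) ^ θ)
    rw [← hKd] at this
    linarith
  have h1 := (lower volume (T := fun i => tube δ (a i) (e i)) (fun i => tube_meas _ _ _) hK1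
    (by rw [Fintype.card_fin]; exact hKN) hq1)
  rw [Fintype.card_fin] at h1
  have h2 := h1.trans (h δ hδ hδ1 N a e hs K hK1 hKN hKθ)
  have hw : (0 : ℝ) < (N.choose K : ℝ) := by exact_mod_cast Nat.choose_pos hKN
  rw [ENNReal.mul_le_mul_iff_right (ENNReal.ofReal_pos.2 hw).ne' ENNReal.ofReal_ne_top] at h2
  have hp : 0 < ((K : ℝ) / N) ^ q := by positivity
  have h3 : ∫⁻ y, cnt (fun i => tube δ (a i) (e i)) univ y ^ q =
      ENNReal.ofReal ((((K : ℝ) / N) ^ q)⁻¹) * (ENNReal.ofReal (((K : ℝ) / N) ^ q) *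
        ∫⁻ y, cnt (fun i => tube δ (a i) (e i)) univ y ^ q) := by
    rw [← mul_assoc, ← ENNReal.ofReal_mul (by positivity), inv_mul_cancel₀ hp.ne',
      ENNReal.ofReal_one, one_mul]
  rw [h3]
  refine (mul_le_mul_right h2 _).trans ?_
  rw [← ENNReal.ofReal_mul (by positivity)]
  refine ENNReal.ofReal_le_ofReal ?_
  have h4 := mul_le_mul_of_nonneg_left (real2 (q := q) hKR hNR hm hK2)
    (show 0 ≤ C * δ ^ (n - 1) by positivity)
  refine le_trans (le_of_eq ?_) (h4.trans (le_of_eq ?_))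
  · ring
  · ring

/-- the inequality with a loss by interpolation with the theorem of Wolff -/
theorem unc (hn : 3 ≤ n) {q θ : ℝ} (hq1 : 1 < q) (hθ0 : 0 < θ) (hθ1 : θ ≤ 1)
    (h : θ < (q - 1) * n / 2) : Loss n q θ := by
  have hn3 : (3 : ℝ) ≤ n := by exact_mod_cast hn
  have hm : (0 : ℝ) < (n : ℝ) - 1 := by linarith
  obtain ⟨r, hr⟩ : ∃ r : ℝ, r = 1 + (q - 1) / θ := ⟨_, rfl⟩
  have hr1 : 1 + 2 / (n : ℝ) < r := by
    rw [hr]
    have : 2 / (n : ℝ) < (q - 1) / θ := by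
      rw [div_lt_div_iff₀ (by linarith) hθ0]
      linarith
    linarith
  have hr0 : 0 ≤ r := by
    have : 0 < 2 / (n : ℝ) := by positivity
    linarith
  have hqr : q = 1 - θ + θ * r := by
    rw [hr]
    field_simp
    ring
  obtain ⟨A, hA, hw⟩ := wolff hn hr1
  have hCv := Cv_pos n
  refine ⟨(2 * Cv n) ^ (1 - θ) * A ^ θ, by positivity, ?_⟩
  intro δ hδ hδ1 N a e hs
  rcases Nat.eq_zero_or_pos N with rfl | hN
  · have : ∀ y : E n, cnt (fun i => tube δ (a i) (e i)) univ y ^ q = 0 := by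
      intro y
      unfold cnt
      rw [univ_eq_empty, sum_empty, ENNReal.zero_rpow_of_pos (by linarith)]
    simp only [this, lintegral_zero]
    exact zero_le
  have hN0 : (0 : ℝ) < N := by exact_mod_cast hN
  have h1 := interp volume (cnt_meas (T := fun i => tube δ (a i) (e i))
    (fun i => tube_meas _ _ _) univ) hθ0.le hθ1 hr0 hqr
  have h2 := mass' (a := a) (by omega : 1 ≤ n) hδ hδ1 hs
  have h3 := hw δ hδ hδ1 a e hs.1 hs.2
  rw [Fintype.card_fin] at h3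
  have h3' : ∫⁻ y, cnt (fun i => tube δ (a i) (e i)) univ y ^ r ≤
      ENNReal.ofReal (A * (δ ^ (n - 1) * (N : ℝ) ^ (r - 1 / ((n : ℝ) - 1)))) := h3
  refine h1.trans ?_
  calc (∫⁻ y, cnt (fun i => tube δ (a i) (e i)) univ y) ^ (1 - θ) *
        (∫⁻ y, cnt (fun i => tube δ (a i) (e i)) univ y ^ r) ^ θ
      ≤ (ENNReal.ofReal (2 * Cv n * ((N : ℝ) * δ ^ (n - 1)))) ^ (1 - θ) *
        (ENNReal.ofReal (A * (δ ^ (n - 1) * (N : ℝ) ^ (r - 1 / ((n : ℝ) - 1))))) ^ θ := by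
        refine mul_le_mul' (ENNReal.rpow_le_rpow h2 (by linarith))
          (ENNReal.rpow_le_rpow h3' hθ0.le)
    _ = ENNReal.ofReal ((2 * Cv n * ((N : ℝ) * δ ^ (n - 1))) ^ (1 - θ) *
        (A * (δ ^ (n - 1) * (N : ℝ) ^ (r - 1 / ((n : ℝ) - 1)))) ^ θ) := by
        rw [ENNReal.ofReal_rpow_of_nonneg (by positivity) (by linarith),
          ENNReal.ofReal_rpow_of_nonneg (by positivity) hθ0.le,
          ← ENNReal.ofReal_mul (by positivity)]
    _ ≤ _ := by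
        refine ENNReal.ofReal_le_ofReal (le_of_eq ?_)
        obtain ⟨D, hD⟩ : ∃ D : ℝ, D = δ ^ (n - 1) := ⟨_, rfl⟩
        have hD0 : 0 < D := by rw [hD]; positivity
        rw [← hD]
        have e1 : (2 * Cv n * ((N : ℝ) * D)) ^ (1 - θ) =
            (2 * Cv n) ^ (1 - θ) * ((N : ℝ) ^ (1 - θ) * D ^ (1 - θ)) := by
          rw [Real.mul_rpow (x := 2 * Cv n) (y := (N : ℝ) * D) (by positivity) (by positivity),
            Real.mul_rpow (x := (N : ℝ)) (y := D) hN0.le hD0.le]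
        have e2 : (A * (D * (N : ℝ) ^ (r - 1 / ((n : ℝ) - 1)))) ^ θ =
            A ^ θ * (D ^ θ * (N : ℝ) ^ ((r - 1 / ((n : ℝ) - 1)) * θ)) := by
          rw [Real.mul_rpow (by positivity) (by positivity),
            Real.mul_rpow (by positivity) (by positivity), ← Real.rpow_mul hN0.le]
        have e3 : D ^ (1 - θ) * D ^ θ = D := by
          rw [← Real.rpow_add hD0]
          have : 1 - θ + θ = 1 := by ring
          rw [this, Real.rpow_one]
        have e4 : (N : ℝ) ^ (1 - θ) * (N : ℝ) ^ ((r - 1 / ((n : ℝ) - 1)) * θ) =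
            (N : ℝ) ^ (q - θ / ((n : ℝ) - 1)) := by
          rw [← Real.rpow_add hN0]
          congr 1
          rw [hqr]
          ring
        rw [e1, e2]
        calc (2 * Cv n) ^ (1 - θ) * ((N : ℝ) ^ (1 - θ) * D ^ (1 - θ)) *
              (A ^ θ * (D ^ θ * (N : ℝ) ^ ((r - 1 / ((n : ℝ) - 1)) * θ)))
            = (2 * Cv n) ^ (1 - θ) * A ^ θ * (D ^ (1 - θ) * D ^ θ) *
              ((N : ℝ) ^ (1 - θ) * (N : ℝ) ^ ((r - 1 / ((n : ℝ) - 1)) * θ)) := by ring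
          _ = _ := by rw [e3, e4]

/-- averages for large exponents -/
theorem large (hn : 3 ≤ n) {q θ : ℝ} (hq : 1 + 2 / (n : ℝ) < q) : Avg n q θ := by
  obtain ⟨A, hA, hw⟩ := wolff hn hq
  refine ⟨A, hA, ?_⟩
  intro δ hδ hδ1 N a e hs K hK hKN _
  have h1 : ∀ J ∈ (univ : Finset (Fin N)).powersetCard K,
      ∫⁻ y, cnt (fun i => tube δ (a i) (e i)) J y ^ q ≤
        ENNReal.ofReal (A * δ ^ (n - 1) * (K : ℝ) ^ (q - 1 / ((n : ℝ) - 1))) := by
    intro J hJ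
    have h2 := hw δ hδ hδ1 (ι := {i // i ∈ J}) (fun i => a i.1) (fun i => e i.1)
      (fun i => hs.1 i.1) (fun i j hij => hs.2 i.1 j.1 fun h => hij (Subtype.ext h))
    rw [Fintype.card_coe, (mem_powersetCard.1 hJ).2, ← mul_assoc] at h2
    refine le_trans (le_of_eq ?_) h2
    refine lintegral_congr fun y => ?_
    congr 1
    unfold cnt mult
    exact (sum_coe_sort J (fun i => (tube δ (a i) (e i)).indicator (1 : E n → ℝ≥0∞) y)).symm
  refine (sum_le_sum h1).trans (le_of_eq ?_)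
  rw [sum_const, card_powersetCard, card_univ, Fintype.card_fin, nsmul_eq_mul,
    ENNReal.ofReal_natCast]

/-- the full range -/
theorem full (hn : 3 ≤ n) {q : ℝ} (hq : (n : ℝ) / ((n : ℝ) - 1) < q) :
    Avg n q (n / (2 * ((n : ℝ) - 1))) := by
  have hn3 : (3 : ℝ) ≤ n := by exact_mod_cast hn
  have hm : (0 : ℝ) < (n : ℝ) - 1 := by linarith
  rcases le_or_gt q 2 with hq2 | hq2
  · have h1 : 1 / ((n : ℝ) - 1) < q - 1 := by
      have : (n : ℝ) / ((n : ℝ) - 1) = 1 + 1 / ((n : ℝ) - 1) := by field_simp; ring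
      linarith
    have h0 : 0 < 1 / ((n : ℝ) - 1) := by positivity
    refine fwd (by omega) hq.le hq2 (unc hn (by linarith) (by positivity) ?_ ?_)
    · rw [div_le_one (by linarith)]
      linarith
    · have h2 : (n : ℝ) / (2 * ((n : ℝ) - 1)) = 1 / ((n : ℝ) - 1) * n / 2 := by field_simp
      rw [h2]
      have h3 := mul_lt_mul_of_pos_right h1 (show (0 : ℝ) < n by linarith)
      linarith
  · refine large hn ?_
    have : 2 / (n : ℝ) ≤ 1 := by
      rw [div_le_one (by linarith)]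
      linarith
    linarith

end Pool.Agent.N401.RS
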