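import Pool.Agent.N401.RS.Main
set_option autoImplicit false

/-! Partitions of families of tubes into subfamilies without loss. -/

namespace Pool.Agent.N401.RS

open Finset MeasureTheory
open scoped ENNReal
open Pool.Agent.TH705.RR (E)
open Pool.Agent.Y254 (tube tube_meas Cv Cv_pos mass wolff mult)

/-- the partition into subfamilies without loss -/
def Part (n : ℕ) (q θ : ℝ) : Prop :=
  ∃ C : ℝ, 0 < C ∧ ∀ δ : ℝ, 0 < δ → δ < 1 → ∀ (N : ℕ) (a e : Fin N → E n), Sep δ e →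
    ∃ P : Finpartition (univ : Finset (Fin N)), (P.parts.card : ℝ) ≤ C * (N : ℝ) ^ (1 - θ) ∧
      ∀ J ∈ P.parts, (J.card : ℝ) ≤ (N : ℝ) ^ θ ∧
        ∫⁻ y, cnt (fun i => tube δ (a i) (e i)) J y ^ q ≤
          ENNReal.ofReal (C * δ ^ (n - 1) * (J.card : ℝ) ^ (q - 1 / ((n : ℝ) - 1)))

variable {n : ℕ}

/-- one good subfamily -/
theorem pick {q θ C : ℝ} {δ : ℝ}
    (h : ∀ (N : ℕ) (a e : Fin N → E n), Sep δ e →
      ∀ K : ℕ, 1 ≤ K → K ≤ N → (K : ℝ) ≤ (N : ℝ) ^ θ →
      ∑ J ∈ (univ : Finset (Fin N)).powersetCard K,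
        ∫⁻ y, cnt (fun i => tube δ (a i) (e i)) J y ^ q ≤
        ENNReal.ofReal (N.choose K : ℝ) *
          ENNReal.ofReal (C * δ ^ (n - 1) * (K : ℝ) ^ (q - 1 / ((n : ℝ) - 1))))
    {N : ℕ} {a e : Fin N → E n} (hs : Sep δ e) (s : Finset (Fin N)) {K : ℕ} (hK : 1 ≤ K)
    (hKs : K ≤ s.card) (hKθ : (K : ℝ) ≤ (s.card : ℝ) ^ θ) :
    ∃ J ⊆ s, J.card = K ∧ ∫⁻ y, cnt (fun i => tube δ (a i) (e i)) J y ^ q ≤
      ENNReal.ofReal (C * δ ^ (n - 1) * (K : ℝ) ^ (q - 1 / ((n : ℝ) - 1))) := by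
  obtain ⟨f, hf⟩ : ∃ f : Fin s.card ↪ Fin N, univ.map f = s := by
    refine ⟨(s.orderEmbOfFin rfl).toEmbedding, ?_⟩
    exact Finset.map_orderEmbOfFin_univ s rfl
  have h1 := h s.card (fun i => a (f i)) (fun i => e (f i))
    ⟨fun i => hs.1 _, fun i j hij => hs.2 _ _ (f.injective.ne hij)⟩ K hK hKs hKθ
  obtain ⟨B, hB⟩ : ∃ B : ℝ≥0∞, B = ENNReal.ofReal (C * δ ^ (n - 1) *
    (K : ℝ) ^ (q - 1 / ((n : ℝ) - 1))) := ⟨_, rfl⟩
  rw [← hB] at h1 ⊢
  have h2 : ∃ J ∈ (univ : Finset (Fin s.card)).powersetCard K,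
      ∫⁻ y, cnt (fun i => tube δ (a (f i)) (e (f i))) J y ^ q ≤ B := by
    by_contra hcon
    push Not at hcon
    have hne : ((univ : Finset (Fin s.card)).powersetCard K).Nonempty := by
      rw [powersetCard_nonempty, card_univ, Fintype.card_fin]
      exact hKs
    have h3 := ENNReal.sum_lt_sum_of_nonempty hne hcon
    rw [sum_const, card_powersetCard, card_univ, Fintype.card_fin, nsmul_eq_mul] at h3
    rw [ENNReal.ofReal_natCast] at h1
    exact absurd h1 (not_le.2 h3)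
  obtain ⟨J, hJ, hJB⟩ := h2
  refine ⟨J.map f, ?_, ?_, ?_⟩
  · exact (map_subset_map.2 (subset_univ J)).trans hf.subset
  · rw [card_map]
    exact (mem_powersetCard.1 hJ).2
  · refine le_trans (le_of_eq ?_) hJB
    refine lintegral_congr fun y => ?_
    congr 1
    unfold cnt
    rw [sum_map]

theorem count_step {θ : ℝ} (hθ0 : 0 ≤ θ) (hθ1 : θ < 1) {m K : ℝ} (hm : 1 ≤ m) (hKm : K < m)
    (hK2 : m ^ θ ≤ 2 * K) :
    1 + 2 / (1 - θ) * (m - K) ^ (1 - θ) ≤ 2 / (1 - θ) * m ^ (1 - θ) := by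
  have hm0 : 0 < m := by linarith
  have hmθ : 0 < m ^ θ := Real.rpow_pos_of_pos hm0 _
  have hK0 : 0 < K := by linarith
  have h1 : 0 < 1 - θ := by linarith
  -- concavity
  have h2 : (1 - K / m) ^ (1 - θ) ≤ 1 + (1 - θ) * (-(K / m)) := by
    have := rpow_one_add_le_one_add_mul_self (s := -(K / m)) (p := 1 - θ) (by
      have : K / m ≤ 1 := by
        rw [div_le_one hm0]
        exact hKm.le
      linarith) h1.le (by linarith)
    rw [← sub_eq_add_neg] at this
    exact this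
  have h3 : (m - K) ^ (1 - θ) = m ^ (1 - θ) * (1 - K / m) ^ (1 - θ) := by
    rw [← Real.mul_rpow hm0.le (by
      rw [sub_nonneg, div_le_one hm0]
      exact hKm.le)]
    congr 1
    field_simp
  have h4 : 0 < m ^ (1 - θ) := Real.rpow_pos_of_pos hm0 _
  have h5 : m ^ (1 - θ) * (K / m) = K / m ^ θ := by
    rw [Real.rpow_sub hm0, Real.rpow_one]
    field_simp
  have h6 : 1 / 2 ≤ K / m ^ θ := by
    rw [div_le_div_iff₀ (by norm_num) hmθ]
    linarith
  have h7 : (m - K) ^ (1 - θ) ≤ m ^ (1 - θ) - (1 - θ) * (K / m ^ θ) := by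
    rw [h3, ← h5]
    have := mul_le_mul_of_nonneg_left h2 h4.le
    refine this.trans (le_of_eq ?_)
    ring
  have h8 : 0 < 2 / (1 - θ) := by positivity
  have h9 := mul_le_mul_of_nonneg_left h7 h8.le
  have h10 : 2 / (1 - θ) * (m ^ (1 - θ) - (1 - θ) * (K / m ^ θ)) =
      2 / (1 - θ) * m ^ (1 - θ) - 2 * (K / m ^ θ) := by
    field_simp
  rw [h10] at h9
  linarith

/-- the greedy partition -/
theorem part_gen {θ : ℝ} (hθ0 : 0 ≤ θ) (hθ1 : θ ≤ 1) : ∃ C' : ℝ, 1 ≤ C' ∧
    ∀ (N : ℕ) (G : Finset (Fin N) → Prop),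
    (∀ (s : Finset (Fin N)) (K : ℕ), 1 ≤ K → K ≤ s.card → (K : ℝ) ≤ (s.card : ℝ) ^ θ →
      ∃ J ⊆ s, J.card = K ∧ G J) →
    ∃ P : Finpartition (univ : Finset (Fin N)), (P.parts.card : ℝ) ≤ C' * (N : ℝ) ^ (1 - θ) ∧
      ∀ J ∈ P.parts, (J.card : ℝ) ≤ (N : ℝ) ^ θ ∧ G J := by
  classical
  obtain ⟨C', hC'1, hC'2⟩ : ∃ C' : ℝ, 1 ≤ C' ∧ (θ < 1 → C' = 2 / (1 - θ)) := by
    rcases hθ1.eq_or_lt with h1 | h1
    · exact ⟨1, le_rfl, fun h2 => absurd h1 h2.ne⟩
    · refine ⟨2 / (1 - θ), ?_, fun _ => rfl⟩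
      rw [le_div_iff₀ (by linarith)]
      linarith
  refine ⟨C', hC'1, ?_⟩
  intro N G hG
  have key : ∀ m : ℕ, ∀ s : Finset (Fin N), s.card = m → ∃ P : Finpartition s,
      (P.parts.card = 0 ∨ (P.parts.card : ℝ) ≤ C' * (m : ℝ) ^ (1 - θ)) ∧
      ∀ J ∈ P.parts, (J.card : ℝ) ≤ (m : ℝ) ^ θ ∧ G J := by
    intro m
    induction m using Nat.strong_induction_on with
    | _ m ih =>
      intro s hsm
      rcases Nat.eq_zero_or_pos m with h0 | hm
      · have hse : s = ∅ := card_eq_zero.1 (hsm.trans h0)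
        subst hse
        refine ⟨Finpartition.empty _, Or.inl ?_, ?_⟩
        · rfl
        · intro J hJ
          exact absurd hJ (notMem_empty _)
      · have hmR : (1 : ℝ) ≤ m := by exact_mod_cast hm
        have hm0 : (0 : ℝ) < m := by linarith
        obtain ⟨K, hKd⟩ : ∃ K : ℕ, K = ⌊(m : ℝ) ^ θ⌋₊ := ⟨_, rfl⟩
        have hK1 : 1 ≤ K := by
          rw [hKd]
          exact Nat.le_floor (by exact_mod_cast Real.one_le_rpow hmR hθ0)
        have hKθ : (K : ℝ) ≤ (m : ℝ) ^ θ := by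
          rw [hKd]
          exact Nat.floor_le (by positivity)
        have hKm : K ≤ m := by
          have h1 : (m : ℝ) ^ θ ≤ (m : ℝ) ^ (1 : ℝ) := Real.rpow_le_rpow_of_exponent_le hmR hθ1
          rw [Real.rpow_one] at h1
          exact_mod_cast hKθ.trans h1
        have hKR : (1 : ℝ) ≤ K := by exact_mod_cast hK1
        have hK2 : (m : ℝ) ^ θ ≤ 2 * K := by
          have := Nat.lt_floor_add_one ((m : ℝ) ^ θ)
          rw [← hKd] at this
          linarith
        obtain ⟨J, hJs, hJK, hJB⟩ := hG s K hK1 (by rw [hsm]; exact hKm)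
          (by rw [hsm]; exact hKθ)
        have hcard : (s \ J).card = m - K := by
          rw [card_sdiff_of_subset hJs, hsm, hJK]
        obtain ⟨P, hP1, hP2⟩ := ih (m - K) (by omega) (s \ J) hcard
        have hJne : J ≠ ⊥ := by
          intro hJ0
          rw [hJ0, bot_eq_empty, card_empty] at hJK
          omega
        have hdis : Disjoint (s \ J) J := sdiff_disjoint
        have hsup : (s \ J) ⊔ J = s := by
          rw [sup_eq_union, sdiff_union_of_subset hJs]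
        refine ⟨P.extend hJne hdis hsup, Or.inr ?_, ?_⟩
        · have hc : ((P.extend hJne hdis hsup).parts.card : ℝ) ≤ P.parts.card + 1 := by
            have : (P.extend hJne hdis hsup).parts.card ≤ P.parts.card + 1 := by
              rw [Finpartition.extend_parts]
              exact card_insert_le _ _
            exact_mod_cast this
          refine hc.trans ?_
          have hbase : (1 : ℝ) ≤ C' * (m : ℝ) ^ (1 - θ) := by
            have h1 : 1 ≤ (m : ℝ) ^ (1 - θ) := Real.one_le_rpow hmR (by linarith)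
            nlinarith
          rcases hP1 with hP1 | hP1
          · rw [hP1, Nat.cast_zero, zero_add]
            exact hbase
          · rcases hKm.eq_or_lt with hKe | hKlt
            · have h0 : (s \ J) = ∅ := card_eq_zero.1 (by rw [hcard, hKe, Nat.sub_self])
              have hPe : P.parts.card = 0 := by
                rw [card_eq_zero]
                by_contra hne
                obtain ⟨b, hb⟩ := nonempty_iff_ne_empty.2 hne
                have h1 := P.le hb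
                rw [h0] at h1
                exact P.ne_bot hb (le_bot_iff.1 h1)
              rw [hPe, Nat.cast_zero, zero_add]
              exact hbase
            · have hθlt : θ < 1 := by
                rcases hθ1.eq_or_lt with h1 | h1
                · exfalso
                  rw [h1, Real.rpow_one, Nat.floor_natCast] at hKd
                  omega
                · exact h1
              have h1 := count_step hθ0 hθlt hmR (show (K : ℝ) < m by exact_mod_cast hKlt) hK2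
              have h2 : ((m - K : ℕ) : ℝ) = (m : ℝ) - K := by
                rw [Nat.cast_sub hKm]
              rw [h2] at hP1
              rw [hC'2 hθlt] at hP1 ⊢
              linarith
        · intro J' hJ'
          rw [Finpartition.extend_parts, mem_insert] at hJ'
          rcases hJ' with rfl | hJ'
          · rw [hJK]
            exact ⟨hKθ, hJB⟩
          · obtain ⟨h1, h2⟩ := hP2 J' hJ'
            refine ⟨h1.trans (Real.rpow_le_rpow (Nat.cast_nonneg _) ?_ hθ0), h2⟩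
            exact_mod_cast Nat.sub_le m K
  obtain ⟨P, hP1, hP2⟩ := key N univ (by rw [card_univ, Fintype.card_fin])
  have hN0 : (0 : ℝ) ≤ (N : ℝ) ^ (1 - θ) := by positivity
  refine ⟨P, ?_, hP2⟩
  rcases hP1 with hP1 | hP1
  · rw [hP1, Nat.cast_zero]
    positivity
  · exact hP1

/-- from averages to partitions -/
theorem part_of_avg {q θ : ℝ} (hθ0 : 0 ≤ θ) (hθ1 : θ ≤ 1) (h : Avg n q θ) : Part n q θ := by
  obtain ⟨C, hC, h⟩ := h
  obtain ⟨C', hC', hgen⟩ := part_gen hθ0 hθ1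
  refine ⟨C + C', by linarith, ?_⟩
  intro δ hδ hδ1 N a e hs
  obtain ⟨P, hP1, hP2⟩ := hgen N (fun J => ∫⁻ y, cnt (fun i => tube δ (a i) (e i)) J y ^ q ≤
    ENNReal.ofReal (C * δ ^ (n - 1) * (J.card : ℝ) ^ (q - 1 / ((n : ℝ) - 1))))
    (fun s K hK hKs hKθ => by
      obtain ⟨J, h1, h2, h3⟩ := pick (h δ hδ hδ1) hs s hK hKs hKθ
      exact ⟨J, h1, h2, by rw [h2]; exact h3⟩)
  have hN0 : (0 : ℝ) ≤ (N : ℝ) ^ (1 - θ) := by positivity
  refine ⟨P, hP1.trans (by nlinarith), ?_⟩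
  intro J hJ
  obtain ⟨h1, h2⟩ := hP2 J hJ
  refine ⟨h1, h2.trans (ENNReal.ofReal_le_ofReal ?_)⟩
  have h3 : 0 ≤ δ ^ (n - 1) * (J.card : ℝ) ^ (q - 1 / ((n : ℝ) - 1)) := by positivity
  nlinarith

/-- from partitions to the inequality with a loss -/
theorem loss_of_part (hn : 2 ≤ n) {q θ : ℝ} (hq : (n : ℝ) / ((n : ℝ) - 1) ≤ q)
    (h : Part n q θ) : Loss n q θ := by
  classical
  obtain ⟨C, hC, h⟩ := h
  have hn2 : (2 : ℝ) ≤ n := by exact_mod_cast hn
  have hm : (0 : ℝ) < (n : ℝ) - 1 := by linarith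
  obtain ⟨β, hβ⟩ : ∃ β : ℝ, β = q - 1 / ((n : ℝ) - 1) := ⟨_, rfl⟩
  have hq' : 1 ≤ β := by
    rw [hβ]
    have : (n : ℝ) / ((n : ℝ) - 1) = 1 + 1 / ((n : ℝ) - 1) := by field_simp; ring
    linarith
  have hq1 : 1 ≤ q := by
    have : 0 < 1 / ((n : ℝ) - 1) := by positivity
    linarith
  refine ⟨C ^ (q - 1) * C, by positivity, ?_⟩
  intro δ hδ hδ1 N a e hs
  rcases Nat.eq_zero_or_pos N with rfl | hN
  · have : ∀ y : E n, cnt (fun i => tube δ (a i) (e i)) univ y ^ q = 0 := by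
      intro y
      unfold cnt
      rw [univ_eq_empty, sum_empty, ENNReal.zero_rpow_of_pos (by linarith)]
    simp only [this, lintegral_zero]
    exact zero_le
  have hN0 : (0 : ℝ) < N := by exact_mod_cast hN
  obtain ⟨P, hP1, hP2⟩ := h δ hδ hδ1 N a e hs
  rw [← hβ] at hP2
  have hsum : ∀ y : E n, cnt (fun i => tube δ (a i) (e i)) univ y =
      ∑ J ∈ P.parts, cnt (fun i => tube δ (a i) (e i)) J y := by
    intro y
    unfold cnt
    conv_lhs => rw [← P.biUnion_parts]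
    rw [sum_biUnion]
    · rfl
    · exact P.disjoint
  have h1 : ∫⁻ y, cnt (fun i => tube δ (a i) (e i)) univ y ^ q ≤
      (P.parts.card : ℝ≥0∞) ^ (q - 1) * ∑ J ∈ P.parts,
        ENNReal.ofReal (C * δ ^ (n - 1) * (J.card : ℝ) ^ β) := by
    calc ∫⁻ y, cnt (fun i => tube δ (a i) (e i)) univ y ^ q
        ≤ ∫⁻ y, (P.parts.card : ℝ≥0∞) ^ (q - 1) *
          ∑ J ∈ P.parts, cnt (fun i => tube δ (a i) (e i)) J y ^ q := by
          refine lintegral_mono fun y => ?_
          rw [hsum]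
          exact ENNReal.rpow_sum_le_const_mul_sum_rpow _ _ hq1
      _ = (P.parts.card : ℝ≥0∞) ^ (q - 1) *
          ∑ J ∈ P.parts, ∫⁻ y, cnt (fun i => tube δ (a i) (e i)) J y ^ q := by
          rw [lintegral_const_mul' _ _ (ENNReal.rpow_ne_top_of_nonneg (by linarith)
            (ENNReal.natCast_ne_top _)), lintegral_finsetSum _ fun J _ =>
            (cnt_meas (fun i => tube_meas _ _ _) J).pow_const q]
      _ ≤ _ := by
          refine mul_le_mul_right (sum_le_sum fun J hJ => (hP2 J hJ).2) _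
  refine h1.trans ?_
  have e1 : (P.parts.card : ℝ≥0∞) ^ (q - 1) = ENNReal.ofReal ((P.parts.card : ℝ) ^ (q - 1)) := by
    rw [← ENNReal.ofReal_natCast, ENNReal.ofReal_rpow_of_nonneg (Nat.cast_nonneg _) (by linarith)]
  rw [e1, ← ENNReal.ofReal_sum_of_nonneg fun J _ => by positivity,
    ← ENNReal.ofReal_mul (by positivity)]
  refine ENNReal.ofReal_le_ofReal ?_
  have h2 : ∀ J ∈ P.parts, C * δ ^ (n - 1) * (J.card : ℝ) ^ β ≤
      C * δ ^ (n - 1) * (N : ℝ) ^ (θ * (β - 1)) * J.card := by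
    intro J hJ
    rcases Nat.eq_zero_or_pos J.card with h0 | hJ0
    · rw [h0, Nat.cast_zero, Real.zero_rpow (by linarith)]
      simp
    · have hJR : (0 : ℝ) < J.card := by exact_mod_cast hJ0
      have h3 : (J.card : ℝ) ^ β = (J.card : ℝ) ^ (β - 1) * J.card := by
        rw [Real.rpow_sub_one hJR.ne']
        field_simp
      rw [h3, mul_assoc (C * δ ^ (n - 1))]
      refine mul_le_mul_of_nonneg_left (mul_le_mul_of_nonneg_right ?_ hJR.le) (by positivity)
      rw [Real.rpow_mul hN0.le]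
      exact Real.rpow_le_rpow hJR.le (hP2 J hJ).1 (by linarith)
  have h3 : ∑ J ∈ P.parts, (J.card : ℝ) = N := by
    have := P.sum_card_parts
    rw [card_univ, Fintype.card_fin] at this
    exact_mod_cast this
  have h4 : ∑ J ∈ P.parts, C * δ ^ (n - 1) * (J.card : ℝ) ^ β ≤
      C * δ ^ (n - 1) * (N : ℝ) ^ (θ * (β - 1)) * N := by
    refine (sum_le_sum h2).trans (le_of_eq ?_)
    rw [← mul_sum, h3]
  have h5 : (P.parts.card : ℝ) ^ (q - 1) ≤ (C * (N : ℝ) ^ (1 - θ)) ^ (q - 1) :=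
    Real.rpow_le_rpow (Nat.cast_nonneg _) hP1 (by linarith)
  refine (mul_le_mul h5 h4 (sum_nonneg fun J _ => by positivity) (by positivity)).trans
    (le_of_eq ?_)
  rw [Real.mul_rpow hC.le (by positivity), ← Real.rpow_mul hN0.le]
  have e2 : (N : ℝ) ^ ((1 - θ) * (q - 1)) * (N : ℝ) ^ (θ * (β - 1)) * N =
      (N : ℝ) ^ (q - θ / ((n : ℝ) - 1)) := by
    conv_lhs => rw [← Real.rpow_one (N : ℝ)]
    rw [← Real.rpow_mul hN0.le, ← Real.rpow_mul hN0.le, ← Real.rpow_add hN0, ← Real.rpow_add hN0]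
    congr 1
    rw [hβ]
    ring
  rw [← e2]
  ring

end Pool.Agent.N401.RS
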