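import Pool.Agent.N401.RS.Part
set_option autoImplicit false

/-! One partition for all exponents. -/

namespace Pool.Agent.N401.RS

open Finset MeasureTheory
open scoped ENNReal
open Pool.Agent.TH705.RR (E)
open Pool.Agent.Y254 (tube tube_meas Cv Cv_pos mass wolff mult)

variable {n : ℕ}

theorem cnt_le {X ι : Type*} (T : ι → Set X) (J : Finset ι) (x : X) : cnt T J x ≤ J.card := by
  unfold cnt
  calc ∑ i ∈ J, (T i).indicator (1 : X → ℝ≥0∞) x ≤ ∑ _i ∈ J, (1 : ℝ≥0∞) := by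
        refine sum_le_sum fun i _ => ?_
        by_cases h : x ∈ T i
        · rw [Set.indicator_of_mem h]
          exact le_rfl
        · rw [Set.indicator_of_notMem h]
          exact zero_le
    _ = J.card := by rw [sum_const, nsmul_eq_mul, mul_one]

/-- larger exponents -/
theorem larger {X ι : Type*} [MeasurableSpace X] (μ : Measure X) (T : ι → Set X) (J : Finset ι)
    {q r : ℝ} (hq : 0 ≤ q) (hqr : q ≤ r) :
    ∫⁻ x, cnt T J x ^ r ∂μ ≤ ENNReal.ofReal ((J.card : ℝ) ^ (r - q)) * ∫⁻ x, cnt T J x ^ q ∂μ := by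
  rw [← lintegral_const_mul' _ _ ENNReal.ofReal_ne_top]
  refine lintegral_mono fun x => ?_
  have h1 : r = (r - q) + q := by ring
  calc cnt T J x ^ r = cnt T J x ^ (r - q) * cnt T J x ^ q := by
        conv_lhs => rw [h1]
        rw [ENNReal.rpow_add_of_nonneg _ _ (by linarith) hq]
    _ ≤ (J.card : ℝ≥0∞) ^ (r - q) * cnt T J x ^ q := by
        refine mul_le_mul_left (ENNReal.rpow_le_rpow (cnt_le T J x) (by linarith)) _
    _ = _ := by
        rw [← ENNReal.ofReal_natCast, ENNReal.ofReal_rpow_of_nonneg (Nat.cast_nonneg _)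
          (by linarith)]

/-- one good subfamily for all exponents of a sequence -/
theorem pick_all {θ : ℝ} {p C : ℕ → ℝ} (hC : ∀ j, 0 < C j) {δ : ℝ} (hδ : 0 < δ)
    (h : ∀ (j : ℕ) (N : ℕ) (a e : Fin N → E n), Sep δ e →
      ∀ K : ℕ, 1 ≤ K → K ≤ N → (K : ℝ) ≤ (N : ℝ) ^ θ →
      ∑ J ∈ (univ : Finset (Fin N)).powersetCard K,
        ∫⁻ y, cnt (fun i => tube δ (a i) (e i)) J y ^ p j ≤
        ENNReal.ofReal (N.choose K : ℝ) *
          ENNReal.ofReal (C j * δ ^ (n - 1) * (K : ℝ) ^ (p j - 1 / ((n : ℝ) - 1))))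
    {N : ℕ} {a e : Fin N → E n} (hs : Sep δ e) (s : Finset (Fin N)) {K : ℕ} (hK : 1 ≤ K)
    (hKs : K ≤ s.card) (hKθ : (K : ℝ) ≤ (s.card : ℝ) ^ θ) :
    ∃ J ⊆ s, J.card = K ∧ ∀ j, ∫⁻ y, cnt (fun i => tube δ (a i) (e i)) J y ^ p j ≤
      ENNReal.ofReal (2 ^ (j + 1) * C j * δ ^ (n - 1) * (K : ℝ) ^ (p j - 1 / ((n : ℝ) - 1))) := by
  obtain ⟨f, hf⟩ : ∃ f : Fin s.card ↪ Fin N, univ.map f = s := by
    refine ⟨(s.orderEmbOfFin rfl).toEmbedding, ?_⟩
    exact Finset.map_orderEmbOfFin_univ s rfl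
  have hKR : (0 : ℝ) < K := by exact_mod_cast hK
  obtain ⟨B, hB⟩ : ∃ B : ℕ → ℝ, B = fun j => C j * δ ^ (n - 1) *
    (K : ℝ) ^ (p j - 1 / ((n : ℝ) - 1)) := ⟨_, rfl⟩
  have hB0 : ∀ j, 0 < B j := by
    intro j
    rw [hB]
    have := hC j
    positivity
  have h1 : ∀ j, ∑ J ∈ (univ : Finset (Fin s.card)).powersetCard K,
      ∫⁻ y, cnt (fun i => tube δ (a (f i)) (e (f i))) J y ^ p j ≤
        ENNReal.ofReal (s.card.choose K : ℝ) * ENNReal.ofReal (B j) := by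
    intro j
    have := h j s.card (fun i => a (f i)) (fun i => e (f i))
      ⟨fun i => hs.1 _, fun i j hij => hs.2 _ _ (f.injective.ne hij)⟩ K hK hKs hKθ
    rw [hB]
    exact this
  obtain ⟨g, hg⟩ : ∃ g : ℕ → Finset (Fin s.card) → ℝ≥0∞, g = fun j J =>
    ENNReal.ofReal ((2 ^ (j + 1) * B j)⁻¹) *
      ∫⁻ y, cnt (fun i => tube δ (a (f i)) (e (f i))) J y ^ p j := ⟨_, rfl⟩
  have h2 : ∀ j, ∑ J ∈ (univ : Finset (Fin s.card)).powersetCard K, g j J ≤
      (s.card.choose K : ℝ≥0∞) * (1 / 2) ^ (j + 1) := by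
    intro j
    rw [hg]
    simp only
    rw [← mul_sum]
    refine (mul_le_mul_right (h1 j) _).trans (le_of_eq ?_)
    rw [ENNReal.ofReal_natCast, mul_left_comm, ← ENNReal.ofReal_mul (by
      have := hB0 j
      positivity)]
    congr 1
    have e1 : (2 ^ (j + 1) * B j)⁻¹ * B j = (1 / 2 : ℝ) ^ (j + 1) := by
      have := (hB0 j).ne'
      rw [one_div, inv_pow]
      field_simp
    rw [e1, ENNReal.ofReal_pow (by norm_num)]
    congr 1
    rw [one_div, one_div, ENNReal.ofReal_inv_of_pos (by norm_num)]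
    norm_num
  have h3 : ∑ J ∈ (univ : Finset (Fin s.card)).powersetCard K, ∑' j, g j J ≤
      (s.card.choose K : ℝ≥0∞) := by
    rw [← Summable.tsum_finsetSum fun _ _ => ENNReal.summable]
    refine (ENNReal.tsum_le_tsum h2).trans (le_of_eq ?_)
    rw [ENNReal.tsum_mul_left]
    have e2 : ∑' j : ℕ, ((1 : ℝ≥0∞) / 2) ^ (j + 1) = 1 := by
      have := ENNReal.tsum_geometric_add_one ((1 : ℝ≥0∞) / 2)
      rw [this, one_div, ENNReal.one_sub_inv_two, inv_inv]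
      exact ENNReal.inv_mul_cancel two_ne_zero ENNReal.ofNat_ne_top
    rw [e2, mul_one]
  have h4 : ∃ J ∈ (univ : Finset (Fin s.card)).powersetCard K, ∑' j, g j J ≤ 1 := by
    by_contra hcon
    push Not at hcon
    have hne : ((univ : Finset (Fin s.card)).powersetCard K).Nonempty := by
      rw [powersetCard_nonempty, card_univ, Fintype.card_fin]
      exact hKs
    have h5 := ENNReal.sum_lt_sum_of_nonempty hne hcon
    rw [sum_const, card_powersetCard, card_univ, Fintype.card_fin, nsmul_eq_mul, mul_one] at h5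
    exact absurd h3 (not_le.2 h5)
  obtain ⟨J, hJ, hJ1⟩ := h4
  refine ⟨J.map f, (map_subset_map.2 (subset_univ J)).trans hf.subset, ?_, ?_⟩
  · rw [card_map]
    exact (mem_powersetCard.1 hJ).2
  · intro j
    have h5 : g j J ≤ 1 := (ENNReal.le_tsum j).trans hJ1
    rw [hg] at h5
    have h6 : 0 < 2 ^ (j + 1) * B j := by
      have := hB0 j
      positivity
    have h7 : ∫⁻ y, cnt (fun i => tube δ (a (f i)) (e (f i))) J y ^ p j ≤
        ENNReal.ofReal (2 ^ (j + 1) * B j) := by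
      calc ∫⁻ y, cnt (fun i => tube δ (a (f i)) (e (f i))) J y ^ p j
          = ENNReal.ofReal (2 ^ (j + 1) * B j) * (ENNReal.ofReal ((2 ^ (j + 1) * B j)⁻¹) *
            ∫⁻ y, cnt (fun i => tube δ (a (f i)) (e (f i))) J y ^ p j) := by
            rw [← mul_assoc, ← ENNReal.ofReal_mul h6.le, mul_inv_cancel₀ h6.ne',
              ENNReal.ofReal_one, one_mul]
        _ ≤ ENNReal.ofReal (2 ^ (j + 1) * B j) * 1 := mul_le_mul_right h5 _
        _ = _ := mul_one _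
    refine le_trans (le_of_eq ?_) (h7.trans (le_of_eq ?_))
    · refine lintegral_congr fun y => ?_
      congr 1
      unfold cnt
      rw [sum_map]
    · rw [hB]
      congr 1
      ring

/-- one partition for all exponents -/
theorem universal (hn : 3 ≤ n) : ∃ (c : ℝ) (C : ℝ → ℝ), 0 < c ∧ (∀ q, 0 < C q) ∧
    ∀ δ : ℝ, 0 < δ → δ < 1 → ∀ (N : ℕ) (a e : Fin N → E n), Sep δ e →
    ∃ P : Finpartition (univ : Finset (Fin N)),
      (P.parts.card : ℝ) ≤ c * (N : ℝ) ^ (1 - (n : ℝ) / (2 * ((n : ℝ) - 1))) ∧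
      ∀ J ∈ P.parts, (J.card : ℝ) ≤ (N : ℝ) ^ ((n : ℝ) / (2 * ((n : ℝ) - 1))) ∧
        ∀ q : ℝ, (n : ℝ) / ((n : ℝ) - 1) < q →
          ∫⁻ y, cnt (fun i => tube δ (a i) (e i)) J y ^ q ≤
            ENNReal.ofReal (C q * δ ^ (n - 1) * (J.card : ℝ) ^ (q - 1 / ((n : ℝ) - 1))) := by
  have hn3 : (3 : ℝ) ≤ n := by exact_mod_cast hn
  have hm : (0 : ℝ) < (n : ℝ) - 1 := by linarith
  obtain ⟨θ, hθ⟩ : ∃ θ : ℝ, θ = (n : ℝ) / (2 * ((n : ℝ) - 1)) := ⟨_, rfl⟩
  have hθ0 : 0 ≤ θ := by rw [hθ]; positivity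
  have hθ1 : θ ≤ 1 := by
    rw [hθ, div_le_one (by linarith)]
    linarith
  obtain ⟨p, hp⟩ : ∃ p : ℕ → ℝ, p = fun j : ℕ => (n : ℝ) / ((n : ℝ) - 1) + 1 / ((j : ℝ) + 1) :=
    ⟨_, rfl⟩
  have hpj : ∀ j, (n : ℝ) / ((n : ℝ) - 1) < p j := by
    intro j
    rw [hp]
    have : (0 : ℝ) < 1 / ((j : ℝ) + 1) := by positivity
    simp only
    linarith
  have hA : ∀ j, Avg n (p j) θ := by
    intro j
    rw [hθ]
    exact full hn (hpj j)
  choose C hC hA using hA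
  obtain ⟨c, hc, hgen⟩ := part_gen hθ0 hθ1
  have hex : ∀ q : ℝ, ∃ j : ℕ, (n : ℝ) / ((n : ℝ) - 1) < q → p j ≤ q := by
    intro q
    rcases le_or_gt q ((n : ℝ) / ((n : ℝ) - 1)) with h | h
    · exact ⟨0, fun h' => absurd h' (not_lt.2 h)⟩
    · obtain ⟨j, hj⟩ := exists_nat_one_div_lt (sub_pos.2 h)
      refine ⟨j, fun _ => ?_⟩
      rw [hp]
      simp only
      linarith
  choose jj hjj using hex
  refine ⟨c, fun q => 2 ^ (jj q + 1) * C (jj q), by linarith, fun q => by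
    have := hC (jj q)
    positivity, ?_⟩
  intro δ hδ hδ1 N a e hs
  rw [← hθ]
  obtain ⟨P, hP1, hP2⟩ := hgen N (fun J => ∀ j, ∫⁻ y, cnt (fun i => tube δ (a i) (e i)) J y ^ p j ≤
      ENNReal.ofReal (2 ^ (j + 1) * C j * δ ^ (n - 1) *
        (J.card : ℝ) ^ (p j - 1 / ((n : ℝ) - 1))))
    (fun s K hK hKs hKθ => by
      obtain ⟨J, h1, h2, h3⟩ := pick_all hC hδ (fun j N a e hs => hA j δ hδ hδ1 N a e hs) hs s hK
        hKs hKθ
      exact ⟨J, h1, h2, by rw [h2]; exact h3⟩)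
  refine ⟨P, hP1, ?_⟩
  intro J hJ
  refine ⟨(hP2 J hJ).1, ?_⟩
  intro q hq
  have h1 := (hP2 J hJ).2 (jj q)
  have h2 := hjj q hq
  have h3 : 0 ≤ p (jj q) := by
    have : 0 < (n : ℝ) / ((n : ℝ) - 1) := by positivity
    linarith [hpj (jj q)]
  have hJc : 0 < J.card := card_pos.2 (P.nonempty_of_mem_parts hJ)
  have hJR : (0 : ℝ) < J.card := by exact_mod_cast hJc
  have hCj := hC (jj q)
  refine (larger volume _ J h3 h2).trans ((mul_le_mul_right h1 _).trans (le_of_eq ?_))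
  rw [← ENNReal.ofReal_mul (by positivity)]
  congr 1
  have e1 : (J.card : ℝ) ^ (q - 1 / ((n : ℝ) - 1)) =
      (J.card : ℝ) ^ (q - p (jj q)) * (J.card : ℝ) ^ (p (jj q) - 1 / ((n : ℝ) - 1)) := by
    rw [← Real.rpow_add hJR]
    congr 1
    ring
  rw [e1]
  ring

end Pool.Agent.N401.RS
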